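import Pool.Agent.Q18.TW.Orb
import Pool.Agent.Q18.OR.Fn

/-!
# The alternating sums of the numbers of fixed characters
-/

open scoped BigOperators Classical

set_option linter.unusedSectionVars false

noncomputable section

namespace Pool.Agent.Q18.TW

open Pool.Agent.Q18.K
open Pool.Agent.Q18.OR (cE cE_coe XP vX finXP InvP actP orbF NO eM PB PB_inv blk_sumO blk_ext)
open Pool.Agent.Q18.PR (NL AB zp_nat cop_of zpA fin_order fin_zp cyc_zero1 nl_congr fin_irr)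
open Pool.Agent.Helper884.IC (IsIrrChar irr_finite)
open Pool.Agent.Y63.NV (redC centralValue IsClassFun IsBlock cut InZ)
open Pool.Agent.Y63.KR
open Pool.Agent.Y63.AWC (irr_comp mult)
open Pool.Agent.Y286.NV (centralValue_comp irr_class)

section

variable {Γ : Type} [Group Γ] [Finite Γ] {p : ℕ} {Z H : Subgroup Γ} {F : Type} [Field F]

/-- `χ` is fixed by `s` and the product with `l` -/
def FX (l : Γ →* ℂˣ) (s : ℂ ≃+* ℂ) (H : Subgroup Γ) (χ : H → ℂ) : Prop :=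
  ∀ x : H, ((l x : ℂˣ) : ℂ) * s (χ x) = χ x

theorem ker_quot {l : Γ →* ℂˣ} {n : ℕ} (hl : l ^ p ^ n = 1) : IsPGroup p (Γ ⧸ l.ker) := by
  intro x
  refine ⟨n, ?_⟩
  induction x using QuotientGroup.induction_on with
  | H g =>
    rw [← QuotientGroup.mk_pow, QuotientGroup.eq_one_iff, MonoidHom.mem_ker, map_pow,
      ← MonoidHom.pow_apply, hl, MonoidHom.one_apply]

/-- the block is unchanged by `s` -/
theorem blk_gal [hp : Fact p.Prime] [CharP F p] (red : integralClosure ℤ ℂ →+* F)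
    {s : ℂ ≃+* ℂ}
    (hs : ∀ ζ : ℂ, ζ ^ Nat.card Γ = 1 → (∃ k : ℕ, ¬ p ∣ k ∧ ζ ^ k = 1) → s ζ = ζ)
    {χ : H → ℂ} (hχ : IsIrrChar χ) (f : Γ → F) :
    centralValue red (fun x => s (χ x)) (fun x : H => f x) =
      centralValue red χ (fun x => f x) := by
  have : Fintype H := Fintype.ofFinite H
  refine cv_gal red (n := Nat.card Γ) Nat.card_pos (fun x => hxn _ x) s (fun ζ hζ => ?_) hχ _
  exact red_fix (p := p) red (σ := s) (n := Nat.card Γ) hs Nat.card_pos hζ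

theorem orb_sig [hp : Fact p.Prime] [IsAlgClosed F] [CharP F p]
    (red : integralClosure ℤ ℂ →+* F) {l : Γ →* ℂˣ} {n : ℕ} (hl : l ^ p ^ n = 1)
    [Fintype (Subgroup.zpowers l)] {s : ℂ ≃+* ℂ}
    (hs : ∀ ζ : ℂ, ζ ^ Nat.card Γ = 1 → (∃ k : ℕ, ¬ p ∣ k ∧ ζ ^ k = 1) → s ζ = ζ)
    {B : (Γ → F) → F} (hB : IsBlock B)
    {σ : Set (Subgroup Γ)} (h1 : IsChain (· ≤ ·) σ) (h2 : ∀ P ∈ σ, IsPGroup p P) :
    ∑ μ : Subgroup.zpowers l, NL red B (FX (μ : Γ →* ℂˣ) s) (chainStabilizer σ) =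
      Nat.card (Subgroup.zpowers l) *
        NO l.ker (chainStabilizer σ) (PB red B l.ker) (fun θ x => s (θ x)) := by
  set H := chainStabilizer σ with hH
  set K := l.ker with hK
  have hpK : IsPGroup p (Γ ⧸ K) := ker_quot hl
  have hblk : ∀ χ : H → ℂ, IsIrrChar χ → ((∀ f : Γ → F, IsClassFun f →
      centralValue red χ (fun x => f x) = B f) ↔ PB red B K χ) := by
    intro χ hχ
    constructor
    · exact fun h f hf => h f hf.conj
    · intro h
      exact blk_ext p _ K le_rfl hpK (lin_block (p := p) red h1 h2 hχ) hB h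
  refine fix_orb (H := H) l s (P := fun χ => ∀ f : Γ → F, IsClassFun f →
      centralValue red χ (fun x => f x) = B f) (PB_inv red B) ?_ ?_
  · intro _ χ θ hχ hθ hm
    rw [hblk χ hχ]
    have h5 : ∀ z : Γ → F, InZ K z → centralValue red χ (fun x => z x) =
        centralValue red θ (fun x => z x) := by
      intro z hz
      have hn : (K.subgroupOf H).Normal := inferInstance
      have : Fintype ↥(H ⊓ K) := Fintype.ofFinite _
      have h6 := Pool.Agent.Y809.NV.cv_eq (K.subgroupOf H) red hχ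
        (irr_comp (eM K H) hθ) hm
        (z := fun x : H => z x) ⟨fun g x => hz.conj g x, fun x hx => hz.supp x hx⟩
      rw [h6]
      have h7 := centralValue_comp red (eM K H) θ (irr_class hθ)
        (fun x : ↥(H ⊓ K) => z x) (fun a x => hz.conj a x)
      rw [← h7]
      rfl
    exact forall₂_congr fun f hf => by rw [h5 f hf]
  · intro χ hχ hP f hf
    rw [blk_gal (p := p) red hs hχ f]
    exact hP f hf

/-- the sum over the powers of `l` -/
theorem step_one [hp : Fact p.Prime] [IsAlgClosed F] [CharP F p]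
    (red : integralClosure ℤ ℂ →+* F) (hZ : IsPGroup p Z) [hZn : Z.Normal]
    {l : Γ →* ℂˣ} {n : ℕ} (hl : l ^ p ^ n = 1) (hZl : Z ≤ l.ker)
    [Fintype (Subgroup.zpowers l)] {s : ℂ ≃+* ℂ}
    (hs : ∀ ζ : ℂ, ζ ^ Nat.card Γ = 1 →
      (∃ k : ℕ, ¬ p ∣ k ∧ ζ ^ (k * Monoid.exponent Z) = 1) → s ζ = ζ)
    {B : (Γ → F) → F} (hB : IsBlock B) [Fintype {σ : Set (Subgroup Γ) // CH p ⊤ Z σ}] :
    ∑ μ : Subgroup.zpowers l, AB p Z red B (FX (μ : Γ →* ℂˣ) s) =
      Nat.card (Subgroup.zpowers l) * AB p Z red B (fun _ _ => True) := by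
  have hs' : ∀ ζ : ℂ, ζ ^ Nat.card Γ = 1 → (∃ k : ℕ, ¬ p ∣ k ∧ ζ ^ k = 1) → s ζ = ζ :=
    fun ζ hζ ⟨k, hk, h⟩ => hs ζ hζ ⟨k, hk, by rw [pow_mul, h, one_pow]⟩
  have h3 := blk_sumO (p := p) (Z := Z) (K := l.ker) red hZ hZl (ker_quot hl) hs hB
  have hnl : ∀ H : Subgroup Γ, NL red B (fun _ _ => True) H = numQ red B (fun _ => True) H :=
    fun _ => rfl
  unfold AB
  rw [Finset.sum_comm, ← sub_eq_zero, Finset.mul_sum, ← Finset.sum_sub_distrib]
  have h4 : ∀ σ : {σ : Set (Subgroup Γ) // CH p ⊤ Z σ},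
      (∑ μ : Subgroup.zpowers l, (-1 : ℤ) ^ σ.1.ncard * ((Nat.card (chainStabilizer σ.1) : ℤ) *
        (NL red B (FX (μ : Γ →* ℂˣ) s) (chainStabilizer σ.1) : ℤ))) -
      (Nat.card (Subgroup.zpowers l) : ℤ) * ((-1) ^ σ.1.ncard *
        ((Nat.card (chainStabilizer σ.1) : ℤ) *
          (NL red B (fun _ _ => True) (chainStabilizer σ.1) : ℤ))) =
      (Nat.card (Subgroup.zpowers l) : ℤ) * ((-1) ^ σ.1.ncard *
        ((Nat.card (chainStabilizer σ.1) : ℤ) *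
        ((NO l.ker (chainStabilizer σ.1) (PB red B l.ker) (fun θ x => s (θ x)) : ℤ) -
          numQ red B (fun _ => True) (chainStabilizer σ.1)))) := by
    intro σ
    have h5 := orb_sig (p := p) red hl hs' hB σ.2.chain σ.2.isp
    have h6 : ∑ μ : Subgroup.zpowers l,
        (NL red B (FX (μ : Γ →* ℂˣ) s) (chainStabilizer σ.1) : ℤ) =
        (Nat.card (Subgroup.zpowers l) : ℤ) *
          (NO l.ker (chainStabilizer σ.1) (PB red B l.ker) (fun θ x => s (θ x)) : ℤ) := by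
      exact_mod_cast h5
    rw [← Finset.mul_sum, ← Finset.mul_sum, h6, hnl]
    ring
  rw [Finset.sum_congr rfl fun σ _ => h4 σ, ← Finset.mul_sum, h3, mul_zero]

theorem pow_fac {U : Type} [CommGroup U] (hpp : p.Prime) {w : U} {n N : ℕ} (hN : N ≠ 0)
    (h1 : w ^ p ^ n = 1) (h2 : w ^ N = 1) : w ^ p ^ (N.factorization p) = 1 := by
  have h1 : orderOf w ∣ p ^ n := orderOf_dvd_of_pow_eq_one h1
  have h2 : orderOf w ∣ N := orderOf_dvd_of_pow_eq_one h2
  obtain ⟨d, _, hd⟩ := (Nat.dvd_prime_pow hpp).1 h1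
  apply orderOf_dvd_iff_pow_eq_one.1
  rw [hd] at h2 ⊢
  exact pow_dvd_pow p ((hpp.pow_dvd_iff_le_factorization hN).1 h2)

theorem pow_pn {U : Type} [CommGroup U] (l : U) {N : ℕ} (hl : l ^ N = 1) (i : ℤ) :
    (l ^ i) ^ N = 1 := by
  rw [← zpow_natCast, ← zpow_mul, mul_comm, zpow_mul, zpow_natCast, hl, one_zpow]

theorem one_iff {U : Type} [CommGroup U] {u w : U} (N : ℕ)
    (h : Subgroup.zpowers u = Subgroup.zpowers w) : u ^ N = 1 ↔ w ^ N = 1 := by
  rw [← orderOf_dvd_iff_pow_eq_one, ← orderOf_dvd_iff_pow_eq_one, ← Nat.card_zpowers,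
    ← Nat.card_zpowers, h]

/-- automorphisms which relate two generators -/
theorem exists_gal' [hp : Fact p.Prime] {w u : Γ →* ℂˣ} {n : ℕ} (hw : w ^ p ^ n = 1)
    (h : Subgroup.zpowers u = Subgroup.zpowers w) :
    ∃ t : ℂ ≃+* ℂ, (∀ ζ : ℂ, ζ ^ Nat.card Γ = 1 → (∃ k : ℕ, ¬ p ∣ k ∧ ζ ^ k = 1) → t ζ = ζ) ∧
      ∀ x : Γ, t (w x : ℂ) = u x := by
  have hpp : p.Prime := hp.out
  have hn0 : 0 < Nat.card Γ := Nat.card_pos
  set a := (Nat.card Γ).factorization p with ha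
  set n' := Nat.card Γ / p ^ a with hn'
  have hnn : p ^ a * n' = Nat.card Γ := Nat.ordProj_mul_ordCompl_eq_self _ p
  have hn'p : ¬ p ∣ n' := Nat.not_dvd_ordCompl hpp hn0.ne'
  have hn'0 : 0 < n' := Nat.pos_of_ne_zero fun h => hn'p (h ▸ dvd_zero p)
  obtain ⟨i, hi⟩ : ∃ i : ℕ, w ^ i = u := zp_nat Nat.card_pos (fin_order w) (by
    rw [← h]
    exact Subgroup.mem_zpowers u)
  obtain ⟨j, hj⟩ : ∃ i : ℕ, u ^ i = w := zp_nat Nat.card_pos (fin_order u) (by
    rw [h]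
    exact Subgroup.mem_zpowers w)
  by_cases hw1 : w = 1
  · refine ⟨RingEquiv.refl ℂ, fun _ _ _ => rfl, fun k => ?_⟩
    have hu1 : u = 1 := by
      rw [← hi, hw1]
      exact one_pow (M := Γ →* ℂˣ) i
    rw [hw1, hu1]
    rfl
  · -- the exponent is prime to `p`
    have hpa : w ^ p ^ a = 1 := pow_fac (U := Γ →* ℂˣ) hpp hn0.ne' hw (fin_order w)
    have hpi : ¬ p ∣ i := cop_of (U := Γ →* ℂˣ) (w := w) (u := u) (c := a) (i := i) (j := j)
      hpp hpa hi hj hw1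
    have hcop : (p ^ a).Coprime n' := (Nat.Prime.coprime_pow_of_not_dvd (m := a) hpp hn'p).symm
    obtain ⟨e, he1, he2⟩ := Nat.chineseRemainder hcop i 1
    have hec : e.Coprime (Nat.card Γ) := by
      rw [← hnn]
      refine Nat.Coprime.mul_right ?_ ?_
      · rw [Nat.coprime_iff_gcd_eq_one, he1.gcd_eq]
        exact Nat.Prime.coprime_pow_of_not_dvd (m := a) hpp hpi
      · rw [Nat.coprime_iff_gcd_eq_one, he2.gcd_eq]
        exact Nat.gcd_one_left _
    obtain ⟨t, ht⟩ := exists_cyc_aut hn0 (ZMod.unitOfCoprime e hec)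
    have : NeZero (Nat.card Γ) := ⟨hn0.ne'⟩
    have hv : ((ZMod.unitOfCoprime e hec : (ZMod (Nat.card Γ))ˣ) : ZMod (Nat.card Γ)).val ≡ e
        [MOD Nat.card Γ] := by
      rw [ZMod.coe_unitOfCoprime, ZMod.val_natCast]
      exact Nat.mod_modEq _ _
    have ht' : ∀ ζ : ℂ, ζ ^ Nat.card Γ = 1 → t ζ = ζ ^ e := fun ζ hζ => by
      rw [ht ζ hζ]
      exact pow_of_modEq hv hζ
    refine ⟨t, ?_, ?_⟩
    · rintro ζ hζ ⟨k, hk, hζk⟩
      rw [ht' ζ hζ]
      have h1 : ζ ^ (n' * p ^ 0) = 1 := by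
        refine pow_key hpp (a := a) hk ?_ ?_
        · rw [Nat.mul_comm, hnn, hζ]
        · rw [pow_zero, mul_one, hζk]
      rw [pow_zero, mul_one] at h1
      have := pow_of_modEq he2 h1
      rw [this, pow_one]
    · intro x
      have h2 : ((w x : ℂˣ) : ℂ) ^ (p ^ a) = 1 := by
        rw [← Units.val_pow_eq_pow_val, ← MonoidHom.pow_apply, hpa,
          MonoidHom.one_apply, Units.val_one]
      have h3 : ((w x : ℂˣ) : ℂ) ^ Nat.card Γ = 1 := by
        rw [← hnn, pow_mul, h2, one_pow]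
      rw [ht' _ h3, pow_of_modEq he1 h2, ← Units.val_pow_eq_pow_val, ← MonoidHom.pow_apply, hi]

theorem nl_gal' [hp : Fact p.Prime] [CharP F p] (red : integralClosure ℤ ℂ →+* F)
    (B : (Γ → F) → F) (s : ℂ ≃+* ℂ)
    {w u : Γ →* ℂˣ} {n : ℕ} (hw : w ^ p ^ n = 1)
    (h : Subgroup.zpowers u = Subgroup.zpowers w) :
    NL red B (FX w s) H ≤ NL red B (FX u s) H := by
  have : Fintype H := Fintype.ofFinite H
  obtain ⟨t, ht1, ht2⟩ := exists_gal' hw h
  unfold NL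
  have hfin := fin_irr H (fun χ => FX u s H χ ∧
    ∀ f : Γ → F, IsClassFun f → centralValue red χ (fun x => f x) = B f)
  refine Nat.card_le_card_of_injective
    (fun χ : {χ : H → ℂ // IsIrrChar χ ∧ FX w s H χ ∧
      ∀ f : Γ → F, IsClassFun f → centralValue red χ (fun x => f x) = B f} =>
      (⟨fun x => t (χ.1 x), irr_gal t χ.2.1, ?_, ?_⟩ :
        {χ : H → ℂ // IsIrrChar χ ∧ FX u s H χ ∧
      ∀ f : Γ → F, IsClassFun f → centralValue red χ (fun x => f x) = B f})) ?_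
  · intro x
    have h5 : ∀ (ψ : H → ℂ), IsIrrChar ψ → ψ (x ^ ex (uσ Γ s)) = s (ψ x) := fun ψ hψ =>
      char_pow_gal s Nat.card_pos (fun ζ hζ => uσ_spec s ζ hζ) hψ (hxn _ x)
    have h6 := h5 _ (irr_gal t χ.2.1)
    have h7 := h5 _ χ.2.1
    change ((u x : ℂˣ) : ℂ) * s (t (χ.1 x)) = t (χ.1 x)
    change t (χ.1 (x ^ ex (uσ Γ s))) = s (t (χ.1 x)) at h6
    rw [← h6, h7, ← ht2, ← map_mul, χ.2.2.1 x]
  · intro f hf
    rw [← χ.2.2.2 f hf]
    exact blk_gal (p := p) red ht1 χ.2.1 f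
  · intro χ ψ hχψ
    apply Subtype.ext
    funext x
    exact t.injective (congrFun (congrArg Subtype.val hχψ) x)

theorem ab_gal' [hp : Fact p.Prime] [CharP F p] (red : integralClosure ℤ ℂ →+* F)
    (B : (Γ → F) → F) (s : ℂ ≃+* ℂ)
    [Fintype {σ : Set (Subgroup Γ) // CH p ⊤ Z σ}]
    {w u : Γ →* ℂˣ} {n : ℕ} (hw : w ^ p ^ n = 1) (hu : u ^ p ^ n = 1)
    (h : Subgroup.zpowers u = Subgroup.zpowers w) :
    AB p Z red B (FX w s) = AB p Z red B (FX u s) := by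
  unfold AB
  refine Finset.sum_congr rfl fun σ _ => ?_
  rw [le_antisymm (nl_gal' red B s hw h) (nl_gal' red B s hu h.symm)]

/-- **the fixed characters** -/
theorem ab_main [hp : Fact p.Prime] [IsAlgClosed F] [CharP F p]
    (red : integralClosure ℤ ℂ →+* F) (hZ : IsPGroup p Z) [hZn : Z.Normal]
    {l : Γ →* ℂˣ} {n : ℕ} (hl : l ^ p ^ n = 1) (hZl : Z ≤ l.ker) {s : ℂ ≃+* ℂ}
    (hs : ∀ ζ : ℂ, ζ ^ Nat.card Γ = 1 →
      (∃ k : ℕ, ¬ p ∣ k ∧ ζ ^ (k * Monoid.exponent Z) = 1) → s ζ = ζ)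
    {B : (Γ → F) → F} (hB : IsBlock B) [Fintype {σ : Set (Subgroup Γ) // CH p ⊤ Z σ}] :
    AB p Z red B (FX l s) = AB p Z red B (fun _ _ => True) := by
  have hz : ∀ u ∈ Subgroup.zpowers l, u ^ p ^ n = 1 := by
    rintro _ ⟨i, rfl⟩
    exact pow_pn (U := Γ →* ℂˣ) l hl i
  have hk : ∀ u ∈ Subgroup.zpowers l, Z ≤ u.ker := by
    rintro _ ⟨i, rfl⟩ x hx
    rw [MonoidHom.mem_ker]
    change (l ^ i) x = 1
    have h1 : l x = 1 := hZl hx
    rw [zpA, h1, one_zpow]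
  have h1 := cyc_zero1 (U := Γ →* ℂˣ) (fun u => if u ^ p ^ n = 1 then
    AB p Z red B (FX u s) - AB p Z red B (fun _ _ => True) else 0) ?_ l
    (isOfFinOrder_iff_pow_eq_one.2 ⟨_, Nat.card_pos, fin_order l⟩) ?_
  · rw [if_pos hl] at h1
    exact sub_eq_zero.1 h1
  · intro u w huw
    have h2 : u ^ p ^ n = 1 ↔ w ^ p ^ n = 1 := one_iff (U := Γ →* ℂˣ) _ huw
    by_cases hu : u ^ p ^ n = 1
    · have hw := h2.1 hu
      change (if u ^ p ^ n = 1 then _ else (0 : ℤ)) = if w ^ p ^ n = 1 then _ else 0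
      rw [if_pos hu, if_pos hw, ab_gal' red B s hw hu huw]
    · have hw : ¬ w ^ p ^ n = 1 := fun h => hu (h2.2 h)
      change (if u ^ p ^ n = 1 then _ else (0 : ℤ)) = if w ^ p ^ n = 1 then _ else 0
      rw [if_neg hu, if_neg hw]
  · intro u hu _
    have h2 : ∀ v : Subgroup.zpowers u, (if (v : Γ →* ℂˣ) ^ p ^ n = 1 then
        AB p Z red B (FX (v : Γ →* ℂˣ) s) - AB p Z red B (fun _ _ => True) else 0) =
        AB p Z red B (FX (v : Γ →* ℂˣ) s) - AB p Z red B (fun _ _ => True) := by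
      intro v
      have h3 : Subgroup.zpowers u ≤ Subgroup.zpowers l := by
        rw [Subgroup.zpowers_le]
        exact hu
      exact if_pos (hz _ (h3 v.2))
    rw [Finset.sum_congr rfl fun v _ => h2 v, Finset.sum_sub_distrib,
      step_one red hZ (hz u hu) (hk u hu) hs hB, Finset.sum_const, Finset.card_univ,
      nsmul_eq_mul, ← Nat.card_eq_fintype_card, sub_self]

end

end Pool.Agent.Q18.TW
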