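import Pool.Agent.Q18.TW.Rel
import Pool.Agent.Q18.OR.VSum
import Pool.Agent.Q177.OR.Clp
import Pool.Agent.Q18.PR.Fin

/-!
# Characters and their products with linear characters
-/

open scoped BigOperators Classical

set_option linter.unusedSectionVars false

noncomputable section

namespace Pool.Agent.Q18.TW

open Pool.Agent.Q18.K
open Pool.Agent.Helper884.IC
open Pool.Agent.Y63.AWC (res mult cj mult_spec res_eq mult_exists mem_Orb_of_mult mult_cj)

section

variable {X : Type} [Group X] [Fintype X] (M : Subgroup X)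

/-- the product with a linear character -/
def tw {X : Type} [Group X] (l : X →* ℂˣ) (χ : X → ℂ) : X → ℂ := fun x => (l x : ℂ) * χ x

theorem tw_irr {X : Type} [Group X] (l : X →* ℂˣ) {χ : X → ℂ} (h : IsIrrChar χ) :
    IsIrrChar (tw l χ) := Pool.Agent.Q177.OR.irr_twist l h

theorem res_tw {l : X →* ℂˣ} (hl : M ≤ l.ker) (χ : X → ℂ) : res M (tw l χ) = res M χ := by
  funext m
  change (l m : ℂ) * χ m = χ m
  have h1 : l (m : X) = 1 := hl m.2
  rw [h1, Units.val_one, one_mul]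

theorem mult_tw {l : X →* ℂˣ} (hl : M ≤ l.ker) (χ : X → ℂ) (θ : M → ℂ) :
    mult M (tw l χ) θ = mult M χ θ := by
  unfold mult
  rw [res_tw M hl]

/-- the automorphisms of the complex numbers -/
theorem mult_gal (s : ℂ ≃+* ℂ) {χ : X → ℂ} {θ : M → ℂ} (hχ : IsIrrChar χ) (hθ : IsIrrChar θ) :
    mult M (fun x => s (χ x)) (fun x => s (θ x)) = mult M χ θ := by
  have h1 := mult_spec M hχ hθ
  have h2 := mult_spec M (irr_gal s hχ) (irr_gal s hθ)
  have h3 : B (res M (fun x => s (χ x))) (fun x => s (θ x)) = s (B (res M χ) θ) := by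
    unfold B res
    rw [map_mul, map_inv₀, map_natCast, map_sum]
    congr 1
    refine Finset.sum_congr rfl fun x _ => ?_
    rw [map_mul]
  rw [h3, h1, map_natCast] at h2
  exact_mod_cast h2.symm

/-- two characters over the same character of `M` -/
theorem exists_tw [M.Normal] {l : X →* ℂˣ} (hl : l.ker = M) {χ χ' : X → ℂ} {θ : M → ℂ} (hχ : IsIrrChar χ)
    (hχ' : IsIrrChar χ') (hθ : IsIrrChar θ) (h : mult M χ θ ≠ 0) (h' : mult M χ' θ ≠ 0) :
    ∃ μ : Subgroup.zpowers l, χ' = tw (μ : X →* ℂˣ) χ := by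
  have hfz : Finite (Subgroup.zpowers l) := Pool.Agent.Q18.PR.fin_zp l
  have : Fintype (Subgroup.zpowers l) := Fintype.ofFinite _
  by_contra hcon
  push Not at hcon
  -- the sum of the inner products
  have h1 : ∀ μ : Subgroup.zpowers l, B (tw (μ : X →* ℂˣ) χ) χ' = 0 := by
    intro μ
    rw [B_irr (tw_irr _ hχ) hχ', if_neg (fun h => hcon μ h.symm)]
  have h2 : ∑ μ : Subgroup.zpowers l, B (tw (μ : X →* ℂˣ) χ) χ' = 0 :=
    Finset.sum_eq_zero fun μ _ => h1 μ
  have hsum : ∀ x : X, ∑ μ : Subgroup.zpowers l, (((μ : X →* ℂˣ) x : ℂˣ) : ℂ) =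
      if x ∈ M then (Nat.card (Subgroup.zpowers l) : ℂ) else 0 := by
    intro x
    by_cases hx : x ∈ M
    · rw [if_pos hx]
      have h3 : ∀ μ : Subgroup.zpowers l, (((μ : X →* ℂˣ) x : ℂˣ) : ℂ) = 1 := by
        rintro ⟨μ, i, rfl⟩
        change (((l ^ i) x : ℂˣ) : ℂ) = 1
        rw [← hl] at hx
        rw [Pool.Agent.Q18.PR.zpA, MonoidHom.mem_ker.1 hx, one_zpow, Units.val_one]
      rw [Finset.sum_congr rfl fun μ _ => h3 μ, Finset.sum_const, Finset.card_univ, nsmul_eq_mul,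
        mul_one, Nat.card_eq_fintype_card]
    · rw [if_neg hx]
      set S := ∑ μ : Subgroup.zpowers l, (((μ : X →* ℂˣ) x : ℂˣ) : ℂ) with hS
      have h3 : S = (l x : ℂ) * S := by
        rw [hS, Finset.mul_sum]
        refine (Fintype.sum_equiv (Equiv.mulLeft (⟨l, Subgroup.mem_zpowers l⟩ :
          Subgroup.zpowers l)) _ _ fun μ => ?_).symm
        rfl
      have h4 : (l x : ℂ) ≠ 1 := by
        intro h5
        apply hx
        rw [← hl, MonoidHom.mem_ker]
        exact Units.ext h5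
      have h5 : (1 - (l x : ℂ)) * S = 0 := by
        rw [sub_mul, one_mul, ← h3, sub_self]
      rcases mul_eq_zero.1 h5 with h6 | h6
      · exact absurd (sub_eq_zero.1 h6).symm h4
      · exact h6
  have h3 : ∑ μ : Subgroup.zpowers l, B (tw (μ : X →* ℂˣ) χ) χ' =
      (Nat.card X : ℂ)⁻¹ * ((Nat.card (Subgroup.zpowers l) : ℂ) *
        ((Nat.card M : ℂ) * B (res M χ) (res M χ'))) := by
    unfold B
    rw [← Finset.mul_sum, Finset.sum_comm]
    congr 1
    have h4 : ∀ g : X, ∑ μ : Subgroup.zpowers l, tw (μ : X →* ℂˣ) χ g * χ' g⁻¹ =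
        (if g ∈ M then (Nat.card (Subgroup.zpowers l) : ℂ) else 0) * (χ g * χ' g⁻¹) := by
      intro g
      rw [← hsum g, Finset.sum_mul]
      refine Finset.sum_congr rfl fun μ _ => ?_
      unfold tw
      ring
    rw [Finset.sum_congr rfl fun g _ => h4 g, Pool.Agent.Y63.AWC.sum_M M (fun g => (if g ∈ M then
      (Nat.card (Subgroup.zpowers l) : ℂ) else 0) * (χ g * χ' g⁻¹)) (fun g hg => by
        simp only [if_neg hg, zero_mul])]
    have h5 : (Nat.card M : ℂ) ≠ 0 := cardG_ne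
    rw [mul_inv_cancel_left₀ h5, Finset.mul_sum]
    refine Finset.sum_congr rfl fun m _ => ?_
    rw [if_pos m.2]
    rfl
  have h4 : B (res M χ) (res M χ') = ((∑ θ ∈ Irr M, mult M χ θ * mult M χ' θ : ℕ) : ℂ) := by
    rw [res_eq M hχ, B_sum_left, Nat.cast_sum]
    refine Finset.sum_congr rfl fun t ht => ?_
    rw [B_smul_left, B_comm, mult_spec M hχ' (mem_Irr.1 ht), Nat.cast_mul]
  have h5 : 0 < ∑ θ ∈ Irr M, mult M χ θ * mult M χ' θ := by
    apply Finset.sum_pos'
    · intro i _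
      exact Nat.zero_le _
    · exact ⟨θ, mem_Irr.mpr hθ, Nat.mul_pos (Nat.pos_of_ne_zero h) (Nat.pos_of_ne_zero h')⟩
  rw [h3, h4] at h2
  have h6 : (Nat.card X : ℂ) ≠ 0 := cardG_ne
  have h7 : (Nat.card M : ℂ) ≠ 0 := cardG_ne
  have h8 : (Nat.card (Subgroup.zpowers l) : ℂ) ≠ 0 := by
    exact_mod_cast Nat.card_pos.ne'
  rcases mul_eq_zero.1 h2 with h9 | h9
  · exact inv_ne_zero h6 h9
  rcases mul_eq_zero.1 h9 with h9 | h9
  · exact h8 h9
  rcases mul_eq_zero.1 h9 with h9 | h9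
  · exact h7 h9
  · have h10 : ∑ θ ∈ Irr M, mult M χ θ * mult M χ' θ = 0 := by exact_mod_cast h9
    omega

/-- a character over a given one -/
theorem exists_mult [M.Normal] {θ : M → ℂ} (hθ : IsIrrChar θ) :
    ∃ χ : X → ℂ, IsIrrChar χ ∧ mult M χ θ ≠ 0 := by
  have h1 := Pool.Agent.Y63.AWC.St_eq M hθ
  by_contra hcon
  push Not at hcon
  rw [Finset.sum_eq_zero (fun χ hχ => by rw [hcon χ (mem_Irr.1 hχ)]; rfl), mul_zero] at h1
  exact Nat.card_pos.ne' h1

end

end Pool.Agent.Q18.TW
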