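import Pool.Agent.Q18.TW.Clf

/-!
# Characters fixed by the product with a linear character and a field automorphism
-/

open scoped BigOperators Classical

set_option linter.unusedSectionVars false

noncomputable section

namespace Pool.Agent.Q18.TW

open Pool.Agent.Q18.K
open Pool.Agent.Q18.OR (cE cE_coe XP vX finXP InvP actP orbF NO eM)
open Pool.Agent.Helper884.IC
open Pool.Agent.Y63.AWC (irr_comp mult cj mult_exists mem_Orb_of_mult mult_cj)

section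

variable {Γ : Type} [Group Γ] [Finite Γ] {H : Subgroup Γ}

/-- the irreducible characters of `H` with property `P` -/
def XC (P : (H → ℂ) → Prop) : Type := {χ : H → ℂ // IsIrrChar χ ∧ P χ}

theorem finXC (P : (H → ℂ) → Prop) : Finite (XC P) := Pool.Agent.Q18.PR.fin_irr H P

/-- the restriction of a linear character -/
def rs (H : Subgroup Γ) (μ : Γ →* ℂˣ) : H →* ℂˣ := μ.comp H.subtype

theorem rs_ker (μ : Γ →* ℂˣ) : (rs H μ).ker = μ.ker.subgroupOf H := rfl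

/-- the action of the linear characters -/
@[reducible] def actC (l : Γ →* ℂˣ) {P : (H → ℂ) → Prop}
    (hP : ∀ (μ : Subgroup.zpowers l) (χ : H → ℂ), IsIrrChar χ → P χ → P (tw (rs H μ) χ)) :
    MulAction (Subgroup.zpowers l) (XC P) where
  smul μ χ := ⟨tw (rs H μ) χ.1, tw_irr _ χ.2.1, hP μ χ.1 χ.2.1 χ.2.2⟩
  one_smul χ := Subtype.ext (funext fun x => by
    change ((1 : ℂˣ) : ℂ) * χ.1 x = χ.1 x
    rw [Units.val_one, one_mul])
  mul_smul a b χ := Subtype.ext (funext fun x => by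
    change (((a : Γ →* ℂˣ) x * (b : Γ →* ℂˣ) x : ℂˣ) : ℂ) * χ.1 x =
      ((a : Γ →* ℂˣ) x : ℂ) * (((b : Γ →* ℂˣ) x : ℂ) * χ.1 x)
    rw [Units.val_mul, mul_assoc])

/-- **the characters fixed by `μ` and `s`, and the stable orbits** -/
theorem fix_orb (l : Γ →* ℂˣ) (s : ℂ ≃+* ℂ) [Fintype (Subgroup.zpowers l)]
    {P : (H → ℂ) → Prop} {Q : (↥(H ⊓ l.ker) → ℂ) → Prop} (hQ : InvP l.ker H Q)
    (hPQ : ∀ [Fintype H] (χ : H → ℂ) (θ : ↥(H ⊓ l.ker) → ℂ),
      IsIrrChar χ → IsIrrChar θ →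
      mult (l.ker.subgroupOf H) χ (fun x => θ (eM l.ker H x)) ≠ 0 → (P χ ↔ Q θ))
    (hPs : ∀ χ : H → ℂ, IsIrrChar χ → P χ → P (fun x => s (χ x))) :
    ∑ μ : Subgroup.zpowers l, Nat.card {χ : H → ℂ // IsIrrChar χ ∧
      (∀ x : H, (((μ : Γ →* ℂˣ) x : ℂˣ) : ℂ) * s (χ x) = χ x) ∧ P χ} =
      Nat.card (Subgroup.zpowers l) * NO l.ker H Q (fun θ x => s (θ x)) := by
  have : Fintype H := Fintype.ofFinite H
  set M := l.ker.subgroupOf H with hM
  have hMn : M.Normal := inferInstance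
  -- characters of `M` and of `H ⊓ K`
  have hT : ∀ θ : M → ℂ, IsIrrChar θ → ∃ η : ↥(H ⊓ l.ker) → ℂ, IsIrrChar η ∧
      (fun x => η (eM l.ker H x)) = θ := by
    intro θ hθ
    refine ⟨fun x => θ ((eM l.ker H).symm x), irr_comp (eM l.ker H).symm hθ, ?_⟩
    funext x
    change θ ((eM l.ker H).symm (eM l.ker H x)) = θ x
    rw [MulEquiv.symm_apply_apply]
  have hTi : ∀ η : ↥(H ⊓ l.ker) → ℂ, IsIrrChar η → IsIrrChar (fun x => η (eM l.ker H x)) :=
    fun η hη => irr_comp (eM l.ker H) hη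
  have hle : ∀ μ : Subgroup.zpowers l, M ≤ (rs H (μ : Γ →* ℂˣ)).ker := by
    rintro ⟨μ, i, rfl⟩ x hx
    rw [MonoidHom.mem_ker]
    change (l ^ i) (x : Γ) = 1
    have h1 : l (x : Γ) = 1 := hx
    rw [Pool.Agent.Q18.PR.zpA, h1, one_zpow]
  -- invariance of `P`
  have hP : ∀ (μ : Subgroup.zpowers l) (χ : H → ℂ), IsIrrChar χ → P χ → P (tw (rs H μ) χ) := by
    intro μ χ hχ hPχ
    obtain ⟨θ, hθ, hm⟩ := mult_exists M hχ
    obtain ⟨η, hη, rfl⟩ := hT θ hθ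
    rw [hPQ (tw (rs H μ) χ) η (tw_irr _ hχ) hη (by rw [mult_tw M (hle μ)]; exact hm),
      ← hPQ χ η hχ hη hm]
    exact hPχ
  -- invariance of `Q`
  have hQs : ∀ θ : ↥(H ⊓ l.ker) → ℂ, IsIrrChar θ → Q θ → Q (fun x => s (θ x)) := by
    intro θ hθ hQθ
    obtain ⟨χ, hχ, hm⟩ := exists_mult M (hTi θ hθ)
    have h1 : P χ := (hPQ χ θ hχ hθ hm).2 hQθ
    refine (hPQ (fun x => s (χ x)) (fun x => s (θ x)) (irr_gal s hχ) (irr_gal s hθ) ?_).1
      (hPs χ hχ h1)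
    have h2 := mult_gal M s hχ (hTi θ hθ)
    rw [← h2] at hm
    exact hm
  have := finXC P
  have := finXP l.ker H Q
  let _ := actC l hP
  let _ := actP hQ
  let v : XC P → XC P := fun χ => ⟨fun x => s (χ.1 x), irr_gal s χ.2.1, hPs χ.1 χ.2.1 χ.2.2⟩
  let w : XP l.ker H Q → XP l.ker H Q := fun θ =>
    ⟨fun x => s (θ.1 x), irr_gal s θ.2.1, hQs θ.1 θ.2.1 θ.2.2⟩
  have hsm : ∀ (μ : Subgroup.zpowers l) (χ : XC P), (μ • χ).1 = tw (rs H μ) χ.1 :=
    fun _ _ => rfl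
  have hsm' : ∀ (g : H) (θ : XP l.ker H Q), (g • θ).1 = fun x => θ.1 (cE l.ker H g⁻¹ x) :=
    fun _ _ => rfl
  have hv : ∀ (μ : Subgroup.zpowers l) (χ : XC P), v (μ • χ) ∈
      MulAction.orbit (Subgroup.zpowers l) (v χ) := by
    intro μ χ
    refine ⟨μ ^ ex (uσ Γ s), ?_⟩
    apply Subtype.ext
    funext x
    change ((((μ ^ ex (uσ Γ s) : Subgroup.zpowers l) : Γ →* ℂˣ) x : ℂˣ) : ℂ) * s (χ.1 x) =
      s ((((μ : Γ →* ℂˣ) x : ℂˣ) : ℂ) * χ.1 x)
    rw [map_mul]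
    congr 1
    have h1 : ((((μ : Γ →* ℂˣ) x : ℂˣ) : ℂ)) ^ Nat.card Γ = 1 := by
      rw [← Units.val_pow_eq_pow_val, ← map_pow, pow_card_eq_one', map_one, Units.val_one]
    rw [uσ_spec s _ h1, ← Units.val_pow_eq_pow_val, ← MonoidHom.pow_apply]
    rfl
  have h1 := orbit_count (L := Subgroup.zpowers l) (X := XC P) (v := v) hv
  -- the relation
  have h2 := rel_count (L := Subgroup.zpowers l) (X := XC P) (H := H) (Y := XP l.ker H Q)
    (fun χ θ => mult M χ.1 (fun x => θ.1 (eM l.ker H x)) ≠ 0) v w ?_ ?_ ?_ ?_ ?_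
  · rw [h2] at h1
    have h3 : ∀ μ : Subgroup.zpowers l, Nat.card {x : XC P // μ • v x = x} =
        Nat.card {χ : H → ℂ // IsIrrChar χ ∧
          (∀ x : H, (((μ : Γ →* ℂˣ) x : ℂˣ) : ℂ) * s (χ x) = χ x) ∧ P χ} := by
      intro μ
      refine Nat.card_congr
        { toFun := fun x => ⟨x.1.1, x.1.2.1, fun y => congrFun (congrArg Subtype.val x.2) y,
            x.1.2.2⟩
          invFun := fun x => ⟨⟨x.1, x.2.1, x.2.2.2⟩, Subtype.ext (funext fun y => x.2.2.1 y)⟩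
          left_inv := fun x => rfl
          right_inv := fun x => rfl }
    rw [Finset.sum_congr rfl fun μ _ => h3 μ] at h1
    rw [h1]
    congr 1
    -- orbits
    unfold NO
    have horb : ∀ θ : XP l.ker H Q, (vX l.ker H '' MulAction.orbit H θ) = orbF l.ker H θ.1 := by
      intro θ
      ext η
      constructor
      · rintro ⟨_, ⟨g, rfl⟩, rfl⟩
        exact ⟨g⁻¹, rfl⟩
      · rintro ⟨g, rfl⟩
        refine ⟨g⁻¹ • θ, ⟨g⁻¹, rfl⟩, ?_⟩
        change (fun x => θ.1 (cE l.ker H g⁻¹⁻¹ x)) = _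
        rw [inv_inv]
    refine Nat.card_congr (Equiv.ofBijective (fun O => ⟨vX l.ker H '' O.1, ?_⟩) ⟨?_, ?_⟩)
    · obtain ⟨x, hx, hx'⟩ := O.2
      refine ⟨x.1, x.2.1, x.2.2, ?_, ⟨w x, hx', rfl⟩⟩
      rw [hx, horb]
    · intro O O' h
      apply Subtype.ext
      have hinj : Function.Injective (vX l.ker H : XP l.ker H Q → _) := Subtype.val_injective
      exact hinj.image_injective (congrArg Subtype.val h)
    · rintro ⟨O, θ, h3, h4, rfl, h5⟩
      let y₀ : XP l.ker H Q := ⟨θ, h3, h4⟩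
      refine ⟨⟨MulAction.orbit H y₀, y₀, rfl, ?_⟩, ?_⟩
      · have h6 : (fun x => s (θ x)) ∈ vX l.ker H '' MulAction.orbit H y₀ := by
          rw [horb]
          exact h5
        obtain ⟨y, hy, hy'⟩ := h6
        have h7 : w y₀ = y := Subtype.ext hy'.symm
        rw [h7]
        exact hy
      · apply Subtype.ext
        exact horb _
  · intro χ
    obtain ⟨θ, hθ, hm⟩ := mult_exists M χ.2.1
    obtain ⟨η, hη, rfl⟩ := hT θ hθ
    exact ⟨⟨η, hη, (hPQ χ.1 η χ.2.1 hη hm).1 χ.2.2⟩, hm⟩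
  · intro θ
    obtain ⟨χ, hχ, hm⟩ := exists_mult M (hTi θ.1 θ.2.1)
    exact ⟨⟨χ, hχ, (hPQ χ θ.1 hχ θ.2.1 hm).2 θ.2.2⟩, hm⟩
  · intro χ θ θ' hR
    constructor
    · intro hR'
      have h3 := mem_Orb_of_mult M χ.2.1 (hTi θ.1 θ.2.1) (hTi θ'.1 θ'.2.1) hR hR'
      obtain ⟨g, -, hg⟩ := Finset.mem_image.mp h3
      refine ⟨g⁻¹, ?_⟩
      apply Subtype.ext
      change (g⁻¹ • θ).1 = θ'.1
      rw [hsm', inv_inv]
      funext x
      have h4 := congrFun hg ((eM l.ker H).symm x)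
      rw [MulEquiv.apply_symm_apply] at h4
      rw [← h4]
      rfl
    · rintro ⟨g, rfl⟩
      have h3 := mult_cj M χ.2.1 (hTi θ.1 θ.2.1) g⁻¹
      have h4 : cj M g⁻¹ (fun x => θ.1 (eM l.ker H x)) =
          fun x => (g • θ).1 (eM l.ker H x) := by
        funext x
        rw [hsm']
        rfl
      rw [h4] at h3
      change mult M χ.1 (fun x => (g • θ).1 (eM l.ker H x)) ≠ 0
      rw [h3]
      exact hR
  · intro χ χ' θ hR
    constructor
    · intro hR'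
      obtain ⟨⟨_, i, rfl⟩, hμ⟩ := exists_tw M (l := rs H l) rfl χ.2.1 χ'.2.1 (hTi θ.1 θ.2.1) hR hR'
      refine ⟨⟨l ^ i, i, rfl⟩, ?_⟩
      apply Subtype.ext
      change tw (rs H (l ^ i)) χ.1 = χ'.1
      rw [hμ]
      congr 1
    · rintro ⟨μ, rfl⟩
      change mult M (tw (rs H μ) χ.1) _ ≠ 0
      rw [mult_tw M (hle μ)]
      exact hR
  · intro χ θ hR
    have h3 := mult_gal M s χ.2.1 (hTi θ.1 θ.2.1)
    change mult M (fun x => s (χ.1 x)) (fun x => s (θ.1 (eM l.ker H x))) ≠ 0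
    rw [h3]
    exact hR

end

end Pool.Agent.Q18.TW
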