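import Mathlib

/-!
# Stable orbits of two group actions which are related by a correspondence
-/

open scoped BigOperators Classical

noncomputable section

namespace Pool.Agent.Q18.TW

section burn

variable {L X : Type} [Group L] [MulAction L X]

/-- the points whose orbit is stable under `v` -/
def StX (L : Type) [Group L] {X : Type} [MulAction L X] (v : X → X) : Type :=
  {x : X // v x ∈ MulAction.orbit L x}

/-- the action on the points with a stable orbit -/
@[reducible] def actX {v : X → X} (hv : ∀ (l : L) (x : X), v (l • x) ∈ MulAction.orbit L (v x)) :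
    MulAction L (StX L v) where
  smul l x := ⟨l • x.1, by
    rw [MulAction.orbit_smul]
    have h1 := hv l x.1
    rwa [MulAction.orbit_eq_iff.2 x.2] at h1⟩
  one_smul x := Subtype.ext (one_smul L x.1)
  mul_smul a b x := Subtype.ext (mul_smul a b x.1)

/-- **Burnside's lemma for the orbits which are stable under a map** -/
theorem orbit_count [Fintype L] [Finite X] {v : X → X}
    (hv : ∀ (l : L) (x : X), v (l • x) ∈ MulAction.orbit L (v x)) :
    ∑ h : L, Nat.card {x : X // h • v x = x} =
      Nat.card L * Nat.card {O : Set X // ∃ x, O = MulAction.orbit L x ∧ v x ∈ O} := by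
  have : Fintype X := Fintype.ofFinite X
  let _ : MulAction L (StX L v) := actX hv
  have : Finite (StX L v) := by unfold StX; infer_instance
  have : Fintype (StX L v) := Fintype.ofFinite _
  have h0 : ∀ (h : L) (x : StX L v), (h • x).1 = h • x.1 := fun _ _ => rfl
  -- Burnside on the stable part
  have h1 := MulAction.sum_card_fixedBy_eq_card_orbits_mul_card_group L (StX L v)
  -- the left-hand side
  have h2 : ∀ h : L, Nat.card {x : X // h • v x = x} =
      ∑ x : X, if h • v x = x then 1 else 0 := by
    intro h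
    rw [Nat.card_eq_fintype_card, Fintype.card_subtype, Finset.card_filter]
  have h3 : ∀ h : L, Fintype.card (MulAction.fixedBy (StX L v) h) =
      ∑ x : StX L v, if h • x = x then 1 else 0 := by
    intro h
    rw [← Finset.card_filter, ← Fintype.card_subtype]
    rfl
  have h4 : ∀ x : X, (∑ h : L, if h • v x = x then 1 else 0) =
      if v x ∈ MulAction.orbit L x then Nat.card (MulAction.stabilizer L x) else 0 := by
    intro x
    rw [← Finset.card_filter, ← Fintype.card_subtype, ← Nat.card_eq_fintype_card]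
    by_cases hx : v x ∈ MulAction.orbit L x
    · rw [if_pos hx]
      obtain ⟨k, hk⟩ := hx
      have hk' : k • x = v x := hk
      refine Nat.card_congr
        { toFun := fun h => ⟨h.1 * k, ?_⟩
          invFun := fun h => ⟨h.1 * k⁻¹, ?_⟩
          left_inv := fun h => Subtype.ext (by change h.1 * k * k⁻¹ = h.1; group)
          right_inv := fun h => Subtype.ext (by change h.1 * k⁻¹ * k = h.1; group) }
      · rw [MulAction.mem_stabilizer_iff, mul_smul, hk']
        exact h.2
      · rw [← hk', smul_smul, inv_mul_cancel_right]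
        exact h.2
    · rw [if_neg hx]
      have : IsEmpty {h : L // h • v x = x} := ⟨fun h => hx ⟨h.1⁻¹, by
        change h.1⁻¹ • x = v x
        rw [inv_smul_eq_iff]
        exact h.2.symm⟩⟩
      exact Nat.card_of_isEmpty
  have h5 : ∀ x : StX L v, (∑ h : L, if h • x = x then 1 else 0) =
      Nat.card (MulAction.stabilizer L x.1) := by
    intro x
    rw [← Finset.card_filter, ← Fintype.card_subtype, ← Nat.card_eq_fintype_card]
    refine Nat.card_congr (Equiv.subtypeEquivRight fun h => ?_)
    rw [MulAction.mem_stabilizer_iff, ← h0]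
    exact Subtype.ext_iff
  rw [Finset.sum_congr rfl fun h _ => h2 h, Finset.sum_comm, Finset.sum_congr rfl fun x _ => h4 x]
  rw [Finset.sum_congr rfl fun h _ => h3 h, Finset.sum_comm,
    Finset.sum_congr rfl fun x _ => h5 x] at h1
  have h6 : ∑ x : StX L v, Nat.card (MulAction.stabilizer L x.1) =
      ∑ x : X, if v x ∈ MulAction.orbit L x then Nat.card (MulAction.stabilizer L x) else 0 := by
    rw [← Finset.sum_filter]
    have h7 := Finset.sum_subtype (F := (inferInstance : Fintype (StX L v))) (p := fun x : X => v x ∈ MulAction.orbit L x)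
      (Finset.univ.filter (fun x : X => v x ∈ MulAction.orbit L x))
      (fun x => by rw [Finset.mem_filter]; exact and_iff_right (Finset.mem_univ x))
      (fun x => Nat.card (MulAction.stabilizer L x))
    rw [h7]
    rfl
  rw [← h6, h1, mul_comm, Nat.card_eq_fintype_card (α := L), ← Nat.card_eq_fintype_card
    (α := MulAction.orbitRel.Quotient L (StX L v))]
  congr 1
  refine Nat.card_congr (Equiv.ofBijective (fun q : MulAction.orbitRel.Quotient L (StX L v) =>
    Quotient.liftOn' q (fun x => (⟨MulAction.orbit L x.1, x.1, rfl, x.2⟩ :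
      {O : Set X // ∃ x, O = MulAction.orbit L x ∧ v x ∈ O})) ?_) ⟨?_, ?_⟩)
  · intro a b hab
    obtain ⟨g, hg⟩ := hab
    apply Subtype.ext
    have hg' : g • b.1 = a.1 := congrArg Subtype.val hg
    change MulAction.orbit L a.1 = MulAction.orbit L b.1
    rw [← hg', MulAction.orbit_smul]
  · intro q q' h
    induction q using Quotient.inductionOn' with
    | h a =>
      induction q' using Quotient.inductionOn' with
      | h b =>
        have h8 : MulAction.orbit L a.1 = MulAction.orbit L b.1 := congrArg Subtype.val h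
        have h9 : a.1 ∈ MulAction.orbit L b.1 := by
          rw [← h8]
          exact MulAction.mem_orbit_self _
        obtain ⟨g, hg⟩ := h9
        apply Quotient.sound'
        exact ⟨g, Subtype.ext hg⟩
  · rintro ⟨O, x, rfl, hx⟩
    exact ⟨Quotient.mk'' ⟨x, hx⟩, rfl⟩

end burn

/-- **orbits of two actions related by a correspondence** -/
theorem rel_count {L X H Y : Type} [Group L] [MulAction L X] [Group H] [MulAction H Y]
    (R : X → Y → Prop) (v : X → X) (w : Y → Y)
    (h1 : ∀ x, ∃ y, R x y) (h2 : ∀ y, ∃ x, R x y)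
    (h3 : ∀ x y y', R x y → (R x y' ↔ y' ∈ MulAction.orbit H y))
    (h4 : ∀ x x' y, R x y → (R x' y ↔ x' ∈ MulAction.orbit L x))
    (h5 : ∀ x y, R x y → R (v x) (w y)) :
    Nat.card {O : Set X // ∃ x, O = MulAction.orbit L x ∧ v x ∈ O} =
      Nat.card {O : Set Y // ∃ y, O = MulAction.orbit H y ∧ w y ∈ O} := by
  have e1 : ∀ x y, R x y → {y' | ∃ x' ∈ MulAction.orbit L x, R x' y'} = MulAction.orbit H y := by
    intro x y hxy
    ext y'
    constructor
    · rintro ⟨x', hx', hR⟩
      exact (h3 x' y y' ((h4 x x' y hxy).2 hx')).1 hR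
    · intro hy'
      exact ⟨x, MulAction.mem_orbit_self x, (h3 x y y' hxy).2 hy'⟩
  have e2 : ∀ x y, R x y → {x' | ∃ y' ∈ MulAction.orbit H y, R x' y'} = MulAction.orbit L x := by
    intro x y hxy
    ext x'
    constructor
    · rintro ⟨y', hy', hR⟩
      exact (h4 x x' y' ((h3 x y y' hxy).2 hy')).1 hR
    · intro hx'
      exact ⟨y, MulAction.mem_orbit_self y, (h4 x x' y hxy).2 hx'⟩
  have e3 : ∀ x y, R x y → (v x ∈ MulAction.orbit L x ↔ w y ∈ MulAction.orbit H y) := by
    intro x y hxy
    have h6 := h5 x y hxy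
    constructor
    · intro hv
      exact (h3 (v x) y (w y) ((h4 x (v x) y hxy).2 hv)).1 h6
    · intro hw
      exact (h4 x (v x) (w y) ((h3 x y (w y) hxy).2 hw)).1 h6
  refine Nat.card_congr
    { toFun := fun O => ⟨{y' | ∃ x' ∈ O.1, R x' y'}, ?_⟩
      invFun := fun O => ⟨{x' | ∃ y' ∈ O.1, R x' y'}, ?_⟩
      left_inv := ?_
      right_inv := ?_ }
  · obtain ⟨O, x, rfl, hx⟩ := O
    obtain ⟨y, hy⟩ := h1 x
    refine ⟨y, e1 x y hy, ?_⟩
    have h6 : w y ∈ MulAction.orbit H y := (e3 x y hy).1 hx
    rw [← e1 x y hy] at h6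
    exact h6
  · obtain ⟨O, y, rfl, hy⟩ := O
    obtain ⟨x, hx⟩ := h2 y
    refine ⟨x, e2 x y hx, ?_⟩
    have h6 : v x ∈ MulAction.orbit L x := (e3 x y hx).2 hy
    rw [← e2 x y hx] at h6
    exact h6
  · rintro ⟨O, x, rfl, hx⟩
    obtain ⟨y, hy⟩ := h1 x
    apply Subtype.ext
    change {x' | ∃ y' ∈ {y' | ∃ x' ∈ MulAction.orbit L x, R x' y'}, R x' y'} = _
    rw [e1 x y hy, e2 x y hy]
  · rintro ⟨O, y, rfl, hy⟩
    obtain ⟨x, hx⟩ := h2 y
    apply Subtype.ext
    change {y' | ∃ x' ∈ {x' | ∃ y' ∈ MulAction.orbit H y, R x' y'}, R x' y'} = _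
    rw [e2 x y hx, e1 x y hx]

end Pool.Agent.Q18.TW
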