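import Pool.Agent.Q18.TW.Alt
import Pool.Agent.Q18.K.Cls
import Pool.Agent.Y63.NV.Free
import Pool.Agent.Y63.KR.Levels
import Pool.Agent.Y63.KR.Chi

/-!
# The alternating sums over all blocks
-/

open scoped BigOperators Classical

set_option linter.unusedSectionVars false

noncomputable section

namespace Pool.Agent.Q18.TW

open Pool.Agent.Q18.K
open Pool.Agent.Q18.PR (NL AB fin_irr)
open Pool.Agent.Helper884.IC (IsIrrChar irr_finite Irr mem_Irr)
open Pool.Agent.Y63.NV (redC centralValue IsClassFun IsBlock)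
open Pool.Agent.Y63.KR
open Pool.Agent.Y63.AWC (irr_comp)

section

variable {Γ : Type} [Group Γ] [Finite Γ] {p : ℕ} {Z H : Subgroup Γ}

/-- the number of the irreducible characters with a given property -/
def NT (Q : ∀ H : Subgroup Γ, (H → ℂ) → Prop) (H : Subgroup Γ) : ℕ :=
  Nat.card {χ : H → ℂ // IsIrrChar χ ∧ Q H χ}

/-- the alternating sum over the chains -/
def AT (p : ℕ) (Z : Subgroup Γ) [Fintype {σ : Set (Subgroup Γ) // CH p ⊤ Z σ}]
    (Q : ∀ H : Subgroup Γ, (H → ℂ) → Prop) : ℤ :=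
  ∑ σ : {σ : Set (Subgroup Γ) // CH p ⊤ Z σ}, (-1) ^ σ.1.ncard *
    ((Nat.card (chainStabilizer σ.1) : ℤ) * (NT Q (chainStabilizer σ.1) : ℤ))

/-- **the decomposition into blocks** -/
theorem tot_dec [hp : Fact p.Prime] {F : Type} [Field F] [IsAlgClosed F] [CharP F p]
    (red : integralClosure ℤ ℂ →+* F) [Fintype {σ : Set (Subgroup Γ) // CH p ⊤ Z σ}] :
    ∃ (J : Type) (_ : Fintype J) (B : J → (Γ → F) → F), (∀ j, IsBlock (B j)) ∧
      ∀ Q : ∀ H : Subgroup Γ, (H → ℂ) → Prop, AT p Z Q = ∑ j, AB p Z red (B j) Q := by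
  let I : Type := Σ σ : {σ : Set (Subgroup Γ) // CH p ⊤ Z σ},
    {χ : chainStabilizer σ.1 → ℂ // IsIrrChar χ}
  have hfin : ∀ σ : {σ : Set (Subgroup Γ) // CH p ⊤ Z σ},
      Finite {χ : chainStabilizer σ.1 → ℂ // IsIrrChar χ} := fun σ => by
    have : Fintype (chainStabilizer σ.1) := Fintype.ofFinite _
    exact (irr_finite (G := chainStabilizer σ.1)).to_subtype
  have hI : Finite I := inferInstance
  let κ : I → {f : Γ → F // IsClassFun f} → F := fun i f =>
    centralValue red i.2.1 (fun x => f.1 x)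
  have hJ : Finite (Set.range κ) := Set.finite_range κ
  have : Fintype (Set.range κ) := Fintype.ofFinite _
  choose r hr using fun β : Set.range κ => β.2
  refine ⟨Set.range κ, inferInstance, fun β f => centralValue red (r β).2.1 (fun x => f x),
    fun β => lin_block (p := p) red (r β).1.2.chain (r β).1.2.isp (r β).2.2, fun Q => ?_⟩
  have h1 : ∀ σ : {σ : Set (Subgroup Γ) // CH p ⊤ Z σ}, NT Q (chainStabilizer σ.1) =
      ∑ β : Set.range κ, NL red (fun f : Γ → F => centralValue red (r β).2.1 (fun x => f x)) Q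
        (chainStabilizer σ.1) := by
    intro σ
    unfold NT NL
    have hfin2 : ∀ β : Set.range κ, Finite {χ : chainStabilizer σ.1 → ℂ // IsIrrChar χ ∧
        Q (chainStabilizer σ.1) χ ∧ ∀ f : Γ → F, IsClassFun f →
          centralValue red χ (fun x => f x) = centralValue red (r β).2.1 (fun x => f x)} :=
      fun β => fin_irr (chainStabilizer σ.1) _
    rw [← Nat.card_sigma]
    refine (Nat.card_congr (Equiv.ofBijective
      (fun χ : (Σ β : Set.range κ, {χ : chainStabilizer σ.1 → ℂ // IsIrrChar χ ∧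
        Q (chainStabilizer σ.1) χ ∧ ∀ f : Γ → F, IsClassFun f →
          centralValue red χ (fun x => f x) = centralValue red (r β).2.1 (fun x => f x)}) =>
        (⟨χ.2.1, χ.2.2.1, χ.2.2.2.1⟩ :
          {χ : chainStabilizer σ.1 → ℂ // IsIrrChar χ ∧ Q (chainStabilizer σ.1) χ}))
      ⟨?_, ?_⟩)).symm
    · rintro ⟨β, χ, hχ⟩ ⟨γ, ψ, hψ⟩ h
      have h3 : χ = ψ := congrArg Subtype.val h
      subst h3
      have h4 : β = γ := by
        apply Subtype.ext
        rw [← hr β, ← hr γ]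
        funext f
        exact (hχ.2.2 f.1 f.2).symm.trans (hψ.2.2 f.1 f.2)
      subst h4
      rfl
    · rintro ⟨χ, hχ, hQ⟩
      refine ⟨⟨⟨κ ⟨σ, χ, hχ⟩, ⟨σ, χ, hχ⟩, rfl⟩, χ, hχ, hQ, fun f hf => ?_⟩, rfl⟩
      have h5 := congrFun (hr ⟨κ ⟨σ, χ, hχ⟩, ⟨σ, χ, hχ⟩, rfl⟩) ⟨f, hf⟩
      exact h5.symm
  unfold AT AB
  rw [Finset.sum_comm]
  refine Finset.sum_congr rfl fun σ _ => ?_
  rw [h1 σ, ← Finset.mul_sum, ← Finset.mul_sum, Nat.cast_sum]

/-- **the fixed characters of all blocks** -/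
theorem at_main [hp : Fact p.Prime] (hZ : IsPGroup p Z) [hZn : Z.Normal]
    {l : Γ →* ℂˣ} {n : ℕ} (hl : l ^ p ^ n = 1) (hZl : Z ≤ l.ker) {s : ℂ ≃+* ℂ}
    (hs : ∀ ζ : ℂ, ζ ^ Nat.card Γ = 1 →
      (∃ k : ℕ, ¬ p ∣ k ∧ ζ ^ (k * Monoid.exponent Z) = 1) → s ζ = ζ)
    [Fintype {σ : Set (Subgroup Γ) // CH p ⊤ Z σ}] :
    AT p Z (FX l s) = AT p Z (fun _ _ => True) := by
  obtain ⟨red⟩ := Pool.Agent.Y63.NV.exists_red p (AlgebraicClosure (ZMod p))
  obtain ⟨J, _, B, hB, h⟩ := tot_dec (p := p) (Z := Z) red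
  rw [h, h]
  exact Finset.sum_congr rfl fun j _ => ab_main red hZ hl hZl hs (hB j)

/-- conjugation -/
theorem nt_conj (Q : ∀ H : Subgroup Γ, (H → ℂ) → Prop)
    (hQ : ∀ (g : Γ) (H H' : Subgroup Γ) (e : H ≃* H'), (∀ x : H, ((e x : H') : Γ) = g * x * g⁻¹) →
      ∀ χ : H' → ℂ, Q H' χ → Q H (fun x => χ (e x))) (g : Γ) (H : Subgroup Γ) :
    NT Q (conjSub g H) = NT Q H := by
  let e : H ≃* conjSub g H := (MulAut.conj g).subgroupMap H
  have he : ∀ x : H, ((e x : conjSub g H) : Γ) = g * x * g⁻¹ := fun x => rfl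
  have he' : ∀ y : conjSub g H, ((e.symm y : H) : Γ) = g⁻¹ * y * g⁻¹⁻¹ := fun y => by
    have h1 := he (e.symm y)
    rw [e.apply_symm_apply] at h1
    rw [h1]
    group
  unfold NT
  refine Nat.card_congr
    { toFun := fun χ => ⟨fun x => χ.1 (e x), irr_comp e χ.2.1, hQ g H _ e he χ.1 χ.2.2⟩
      invFun := fun χ => ⟨fun x => χ.1 (e.symm x), irr_comp e.symm χ.2.1,
        hQ g⁻¹ _ H e.symm he' χ.1 χ.2.2⟩
      left_inv := ?_
      right_inv := ?_ }
  · intro χ
    apply Subtype.ext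
    funext x
    change χ.1 (e (e.symm x)) = χ.1 x
    rw [e.apply_symm_apply]
  · intro χ
    apply Subtype.ext
    funext x
    change χ.1 (e.symm (e x)) = χ.1 x
    rw [e.symm_apply_apply]

theorem fx_conj (l : Γ →* ℂˣ) (s : ℂ ≃+* ℂ) (g : Γ) (H H' : Subgroup Γ) (e : H ≃* H')
    (he : ∀ x : H, ((e x : H') : Γ) = g * x * g⁻¹) (χ : H' → ℂ) (h : FX l s H' χ) :
    FX l s H (fun x => χ (e x)) := by
  intro x
  have h1 := h (e x)
  rw [he, map_mul, map_mul, map_inv, mul_comm (l g), mul_inv_cancel_right] at h1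
  exact h1

/-- the number of the characters -/
theorem nt_card (H : Subgroup Γ) : NT (fun _ _ => True) H = Nat.card (ConjClasses H) := by
  have : Fintype H := Fintype.ofFinite H
  have h1 := surfaceCount_one (G := H)
  have h2 := surfaceCount_eq (G := H) 0
  rw [h1] at h2
  rw [h2]
  unfold NT zsum
  simp only [mul_zero, pow_zero, Finset.sum_const, smul_eq_mul, mul_one]
  have e : Nat.card {χ : H → ℂ // IsIrrChar χ ∧ True} = {χ : H → ℂ | IsIrrChar χ}.ncard := by
    rw [← Nat.card_coe_set_eq]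
    exact Nat.card_congr (Equiv.subtypeEquivRight fun χ => (iff_of_eq (and_true _)))
  rw [e]
  exact Set.ncard_eq_toFinset_card _ irr_finite

end

end Pool.Agent.Q18.TW
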